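import Pool.Agent.Y350.EM.Rho

/-!
# The family `f = t c`
-/

set_option autoImplicit false

namespace Pool.Agent.Y350.EM

open Pool.Agent.H826R3.SM Pool.Agent.Y234.EM MvPolynomial
open scoped TensorProduct

section bc

variable {R L : Type} [CommRing R] [CommRing L] [Algebra R L] {v M : ℕ}
  {f : Fin v → MvPolynomial (Fin v) R}

/-- extension of the coefficients -/
noncomputable def mapA (R L : Type) [CommRing R] [CommRing L] [Algebra R L] (v : ℕ) :
    MvPolynomial (Fin v) R →ₐ[R] MvPolynomial (Fin v) L :=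
  { MvPolynomial.map (algebraMap R L) with
    commutes' := fun r => by
      show MvPolynomial.map (algebraMap R L) (C r) = _
      rw [map_C]
      rfl }

theorem mapA_apply (P : MvPolynomial (Fin v) R) :
    mapA R L v P = MvPolynomial.map (algebraMap R L) P := rfl

/-- the map to the fibre over `L` -/
noncomputable def gmap (f : Fin v → MvPolynomial (Fin v) R) (w : Fin v → R)
    (J : Ideal (MvPolynomial (Fin v) L))
    (hJ : ∀ i, MvPolynomial.map (algebraMap R L) (f i) - C (algebraMap R L (w i)) ∈ J) :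
    (MvPolynomial (Fin v) R ⧸ Iw f w) →ₐ[R] (MvPolynomial (Fin v) L ⧸ J) :=
  Ideal.Quotient.liftₐ (Iw f w) ((Ideal.Quotient.mkₐ R J).comp (mapA R L v)) (by
    intro a ha
    have h : Iw f w ≤ RingHom.ker ((Ideal.Quotient.mkₐ R J).comp (mapA R L v)).toRingHom := by
      refine Ideal.span_le.2 ?_
      rintro _ ⟨i, rfl⟩
      rw [SetLike.mem_coe, RingHom.mem_ker]
      show Ideal.Quotient.mk J (mapA R L v (f i - C (w i))) = 0
      rw [mapA_apply, map_sub, map_C, Ideal.Quotient.eq_zero_iff_mem]
      exact hJ i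
    exact h ha)

theorem gmap_mk (f : Fin v → MvPolynomial (Fin v) R) (w : Fin v → R)
    (J : Ideal (MvPolynomial (Fin v) L))
    (hJ : ∀ i, MvPolynomial.map (algebraMap R L) (f i) - C (algebraMap R L (w i)) ∈ J)
    (P : MvPolynomial (Fin v) R) : gmap f w J hJ (Ideal.Quotient.mk (Iw f w) P) =
      Ideal.Quotient.mk J (MvPolynomial.map (algebraMap R L) P) := rfl

/-- base change of the fibre -/
noncomputable def psi (f : Fin v → MvPolynomial (Fin v) R) (w : Fin v → R)
    (J : Ideal (MvPolynomial (Fin v) L))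
    (hJ : ∀ i, MvPolynomial.map (algebraMap R L) (f i) - C (algebraMap R L (w i)) ∈ J) :
    (L ⊗[R] (MvPolynomial (Fin v) R ⧸ Iw f w)) →ₐ[L] (MvPolynomial (Fin v) L ⧸ J) :=
  Algebra.TensorProduct.lift (Algebra.ofId L _) (gmap f w J hJ) fun _ _ => Commute.all _ _

/-- the basis of the fibre -/
noncomputable def bas (hB : S_BAS) (hf : Mo M f) (w : Fin v → R) :
    Module.Basis (Fin v → Fin M) R (MvPolynomial (Fin v) R ⧸ Iw f w) :=
  Module.Basis.ofEquivFun (phie hB hf w).symm

theorem bas_apply (hB : S_BAS) (hf : Mo M f) (w : Fin v → R) (a : Fin v → Fin M) :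
    bas hB hf w a = Ideal.Quotient.mk (Iw f w) (xm R a) := by
  classical
  unfold bas
  rw [Module.Basis.coe_ofEquivFun]
  show phi f M w (Pi.single a 1) = _
  rw [phi_apply, Finset.sum_eq_single a]
  · rw [Pi.single_eq_same, one_smul]
  · intro b _ hb
    rw [Pi.single_eq_of_ne hb, zero_smul]
  · intro h
    exact absurd (Finset.mem_univ _) h

theorem map_xm (a : Fin v → Fin M) :
    MvPolynomial.map (algebraMap R L) (xm R a) = xm L a := by
  unfold xm
  rw [map_prod]
  refine Finset.prod_congr rfl fun i _ => ?_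
  rw [map_pow, map_X]

theorem psi_inj (hB : S_BAS) (hf : Mo M f) (w : Fin v → R) :
    Function.Injective (psi (L := L) f w
      (Iw (fun i => MvPolynomial.map (algebraMap R L) (f i)) fun i => algebraMap R L (w i))
      fun i => Ideal.subset_span ⟨i, rfl⟩) := by
  rw [injective_iff_map_eq_zero]
  intro z hz
  have h1 : z = ∑ a, (((bas hB hf w).baseChange L).repr z a) •
      ((1 : L) ⊗ₜ[R] Ideal.Quotient.mk (Iw f w) (xm R a)) := by
    conv_lhs => rw [← ((bas hB hf w).baseChange L).sum_repr z]
    refine Finset.sum_congr rfl fun a _ => ?_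
    rw [Module.Basis.baseChange_apply, bas_apply]
  have h2 : phi (fun i => MvPolynomial.map (algebraMap R L) (f i)) M
      (fun i => algebraMap R L (w i)) (fun a => ((bas hB hf w).baseChange L).repr z a) = 0 := by
    rw [← hz, phi_apply]
    conv_rhs => rw [h1]
    rw [map_sum]
    refine Finset.sum_congr rfl fun a _ => ?_
    rw [map_smul]
    congr 1
    unfold psi
    rw [Algebra.TensorProduct.lift_tmul, map_one, one_mul, gmap_mk, map_xm]
  have h3 := (injective_iff_map_eq_zero _).1
    (phi_bij hB (mo_map (algebraMap R L) hf) fun i => algebraMap R L (w i)).1 _ h2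
  rw [h1]
  refine Finset.sum_eq_zero fun a _ => ?_
  have h4 := congrFun h3 a
  beta_reduce at h4
  rw [h4]
  exact zero_smul _ _

end bc

theorem fama (hB : S_BAS) : S_FAMA := by
  intro k _ v M f c hf
  have hfR := mo_map (PowerSeries.C (R := k)) hf
  refine ⟨fin_fibre hB hfR _, free_fibre hB hfR _, rank_fibre hB hfR _, fun hr => ?_⟩
  have hJ : Jc f c = Iw (fun i => MvPolynomial.map (algebraMap (PowerSeries k) (LL k))
      (MvPolynomial.map (PowerSeries.C (R := k)) (f i)))
      (fun i => algebraMap (PowerSeries k) (LL k)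
        (PowerSeries.X * PowerSeries.C (c i))) := by
    unfold Jc Iw
    congr 2
    funext i
    beta_reduce
    rw [MvPolynomial.map_map, map_mul (algebraMap (PowerSeries k) (LL k))]
    rfl
  have hi := psi_inj (L := LL k) hB hfR fun i =>
    PowerSeries.X * PowerSeries.C (c i)
  rw [hJ] at hr
  exact isReduced_of_injective _ hi

end Pool.Agent.Y350.EM
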