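import Pool.Agent.Y350.EM.Rho

/-!
# The kernel of the family of points
-/

set_option autoImplicit false

namespace Pool.Agent.Y350.EM

open Pool.Agent.H826R3.SM Pool.Agent.Y234.EM MvPolynomial

theorem coeff_term {k : Type} [Field k] {v : ℕ} (c : Fin v → k) (p : PowerSeries k)
    (d : Fin v →₀ ℕ) (n : ℕ) :
    PowerSeries.coeff n (p * ∏ i, (PowerSeries.X * PowerSeries.C (c i)) ^ d i) =
      if d.degree ≤ n then PowerSeries.coeff (n - d.degree) p * ∏ i, c i ^ d i else 0 := by
  have h : p * ∏ i, (PowerSeries.X * PowerSeries.C (c i)) ^ d i =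
      (p * PowerSeries.C (∏ i, c i ^ d i)) * PowerSeries.X ^ d.degree := by
    have h1 : ∏ i, (PowerSeries.X * PowerSeries.C (c i)) ^ d i =
        PowerSeries.X ^ d.degree * PowerSeries.C (∏ i, c i ^ d i) := by
      rw [Finsupp.degree_eq_sum, map_prod, ← Finset.prod_pow_eq_pow_sum,
        ← Finset.prod_mul_distrib]
      refine Finset.prod_congr rfl fun i _ => ?_
      rw [mul_pow, map_pow]
    rw [h1]
    ring
  rw [h, PowerSeries.coeff_mul_X_pow', PowerSeries.coeff_mul_C]

theorem famb_coef {k : Type} [Field k] {v N s : ℕ} (c : Fin s → Fin v → k) (hU : Unis N c)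
    (P : MvPolynomial (Fin v) (PowerSeries k))
    (hP : ∀ j, eval (fun i => PowerSeries.X * PowerSeries.C (c j i)) P = 0)
    (b : Fin v →₀ ℕ) (hb : b.degree < N) :
    PowerSeries.constantCoeff (P.coeff b) = 0 := by
  classical
  let G0 : MvPolynomial (Fin v) k := ∑ d ∈ P.support.filter (fun d => d.degree ≤ b.degree),
    monomial d (PowerSeries.coeff (b.degree - d.degree) (P.coeff d))
  have h1 : G0.totalDegree ≤ b.degree := by
    refine totalDegree_finsetSum_le fun d hd => ?_
    refine (totalDegree_monomial_le d _).trans ?_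
    exact (Finset.mem_filter.1 hd).2
  have h2 : ∀ j, eval (c j) G0 = 0 := by
    intro j
    have h3 : eval (c j) G0 = PowerSeries.coeff b.degree
        (eval (fun i => PowerSeries.X * PowerSeries.C (c j i)) P) := by
      rw [eval_eq' (fun i => PowerSeries.X * PowerSeries.C (c j i)) P, map_sum, map_sum,
        Finset.sum_filter]
      refine Finset.sum_congr rfl fun d _ => ?_
      rw [coeff_term]
      split_ifs with h4
      · rw [eval_monomial, Finsupp.prod_fintype _ _ (fun i => pow_zero _)]
      · rfl
    rw [h3, hP j, map_zero]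
  have h3 : G0 = 0 := hU G0 (lt_of_le_of_lt h1 hb) h2
  by_cases hbs : b ∈ P.support
  · have h4 : G0.coeff b = PowerSeries.coeff (b.degree - b.degree) (P.coeff b) := by
      show (∑ d ∈ P.support.filter (fun d => d.degree ≤ b.degree),
        monomial d (PowerSeries.coeff (b.degree - d.degree) (P.coeff d))).coeff b = _
      rw [coeff_sum, Finset.sum_eq_single b]
      · rw [coeff_monomial, if_pos rfl]
      · intro d _ hd
        rw [coeff_monomial, if_neg hd]
      · intro h
        exact (h (Finset.mem_filter.2 (show b ∈ P.support ∧ b.degree ≤ b.degree from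
          ⟨hbs, le_rfl⟩))).elim
    rw [h3, coeff_zero, Nat.sub_self, PowerSeries.coeff_zero_eq_constantCoeff_apply] at h4
    exact h4.symm
  · rw [notMem_support_iff.1 hbs, map_zero]

theorem cc_aeval {k : Type} [Field k] {v : ℕ} (f : Fin v → MvPolynomial (Fin v) k)
    (P : MvPolynomial (Fin v) (PowerSeries k)) :
    MvPolynomial.map (PowerSeries.constantCoeff (R := k))
      (aeval (fun i => MvPolynomial.map (PowerSeries.C (R := k)) (f i)) P) =
      aeval f (MvPolynomial.map (PowerSeries.constantCoeff (R := k)) P) := by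
  have h : (MvPolynomial.map (PowerSeries.constantCoeff (R := k))).comp
      (aeval (fun i => MvPolynomial.map (PowerSeries.C (R := k)) (f i)) :
        MvPolynomial (Fin v) (PowerSeries k) →ₐ[PowerSeries k] _).toRingHom =
      (aeval f : MvPolynomial (Fin v) k →ₐ[k] _).toRingHom.comp
        (MvPolynomial.map (PowerSeries.constantCoeff (R := k))) := by
    apply MvPolynomial.ringHom_ext
    · intro r
      show MvPolynomial.map (PowerSeries.constantCoeff (R := k)) (aeval _ (C r)) =
        aeval f (MvPolynomial.map (PowerSeries.constantCoeff (R := k)) (C r))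
      rw [aeval_C, map_C, aeval_C]
      show MvPolynomial.map _ (C r) = C _
      rw [map_C]
    · intro i
      show MvPolynomial.map (PowerSeries.constantCoeff (R := k)) (aeval _ (X i)) =
        aeval f (MvPolynomial.map (PowerSeries.constantCoeff (R := k)) (X i))
      rw [aeval_X, map_X, aeval_X, MvPolynomial.map_map]
      have e : (PowerSeries.constantCoeff (R := k)).comp (PowerSeries.C (R := k)) =
          RingHom.id k := by
        ext x
        simp
      rw [e, MvPolynomial.map_id]
  exact DFunLike.congr_fun h P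

theorem famb (hB : S_BAS) (hQ : S_QP) : S_FAMB := by
  intro k _ v M N s f c hf hU G hG
  have hfR := mo_map (PowerSeries.C (R := k)) hf
  have h1 : MvPolynomial.map (PowerSeries.constantCoeff (R := k)) G =
      ∑ a : Fin v → Fin M, aeval f (MvPolynomial.map (PowerSeries.constantCoeff (R := k))
        (hh hB hfR G a)) * ∏ i, X i ^ (a i : ℕ) := by
    conv_lhs => rw [hh_spec hB hfR G]
    rw [map_sum]
    refine Finset.sum_congr rfl fun a _ => ?_
    rw [map_mul, cc_aeval]
    congr 1
    unfold xm
    rw [map_prod]
    refine Finset.prod_congr rfl fun i _ => ?_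
    rw [map_pow, map_X]
  rw [h1, hQ.1 k v M N f hf]
  intro a
  show _ ∈ idealOfVars (Fin v) k ^ N
  rw [mem_pow_idealOfVars_iff']
  intro b hb
  rw [coeff_map]
  refine famb_coef c hU _ (fun j => ?_) b hb
  have h2 := rho_zero hB hfR (fun i => PowerSeries.X * PowerSeries.C (c j i)) (hG j)
  exact congrFun h2 a

end Pool.Agent.Y350.EM
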