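import Pool.Agent.Y234.EM.Stm

/-!
# The fibres of a monic map
-/

set_option autoImplicit false

namespace Pool.Agent.Y350.EM

open Pool.Agent.H826R3.SM Pool.Agent.Y234.EM MvPolynomial

section gen

variable {R : Type} [CommRing R] {v M : ℕ} {f : Fin v → MvPolynomial (Fin v) R}

/-- the monomial with exponents less than `M` -/
noncomputable def xm (R : Type) [CommRing R] {v M : ℕ} (a : Fin v → Fin M) :
    MvPolynomial (Fin v) R := ∏ i, X i ^ (a i : ℕ)

/-- the coefficients of `G` -/
noncomputable def hh (hB : S_BAS) (hf : Mo M f) (G : MvPolynomial (Fin v) R) :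
    (Fin v → Fin M) → MvPolynomial (Fin v) R := Classical.choose (hB R v M f hf G)

theorem hh_spec (hB : S_BAS) (hf : Mo M f) (G : MvPolynomial (Fin v) R) :
    G = ∑ a : Fin v → Fin M, aeval f (hh hB hf G a) * xm R a :=
  (Classical.choose_spec (hB R v M f hf G)).1

theorem hh_uniq (hB : S_BAS) (hf : Mo M f) {G : MvPolynomial (Fin v) R}
    {H : (Fin v → Fin M) → MvPolynomial (Fin v) R}
    (h : G = ∑ a : Fin v → Fin M, aeval f (H a) * xm R a) : hh hB hf G = H :=
  ((Classical.choose_spec (hB R v M f hf G)).2 H h).symm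

theorem hh_add (hB : S_BAS) (hf : Mo M f) (G G' : MvPolynomial (Fin v) R) :
    hh hB hf (G + G') = fun a => hh hB hf G a + hh hB hf G' a := by
  apply hh_uniq
  conv_lhs => rw [hh_spec hB hf G, hh_spec hB hf G']
  rw [← Finset.sum_add_distrib]
  refine Finset.sum_congr rfl fun a _ => ?_
  rw [map_add, add_mul]

theorem hh_mul (hB : S_BAS) (hf : Mo M f) (P G : MvPolynomial (Fin v) R) :
    hh hB hf (aeval f P * G) = fun a => P * hh hB hf G a := by
  apply hh_uniq
  conv_lhs => rw [hh_spec hB hf G]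
  rw [Finset.mul_sum]
  refine Finset.sum_congr rfl fun a _ => ?_
  rw [map_mul, mul_assoc]

/-- the linear map of the coefficients at the point `w` -/
noncomputable def rho (hB : S_BAS) (hf : Mo M f) (w : Fin v → R) :
    MvPolynomial (Fin v) R →ₗ[R] ((Fin v → Fin M) → R) where
  toFun G a := eval w (hh hB hf G a)
  map_add' G G' := by
    funext a
    rw [hh_add]
    exact map_add _ _ _
  map_smul' r G := by
    funext a
    have h : r • G = aeval f (C r) * G := by
      rw [aeval_C, Algebra.smul_def]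
    rw [h, hh_mul]
    show eval w (C r * hh hB hf G a) = r • eval w (hh hB hf G a)
    rw [map_mul, eval_C, smul_eq_mul]

theorem rho_apply (hB : S_BAS) (hf : Mo M f) (w : Fin v → R) (G : MvPolynomial (Fin v) R)
    (a : Fin v → Fin M) : rho hB hf w G a = eval w (hh hB hf G a) := rfl

/-- the ideal of the fibre over `w` -/
noncomputable abbrev Iw (f : Fin v → MvPolynomial (Fin v) R) (w : Fin v → R) :
    Ideal (MvPolynomial (Fin v) R) := qq fun i => f i - C (w i)

/-- the linear map vanishes on the ideal of the fibre -/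
theorem rho_zero (hB : S_BAS) (hf : Mo M f) (w : Fin v → R) {G : MvPolynomial (Fin v) R}
    (hG : G ∈ Iw f w) : rho hB hf w G = 0 := by
  obtain ⟨c, rfl⟩ := (Ideal.mem_span_range_iff_exists_fun).1 hG
  rw [map_sum]
  refine Finset.sum_eq_zero fun i _ => ?_
  funext a
  rw [rho_apply]
  have h : c i * (f i - C (w i)) = aeval f (X i - C (w i)) * c i := by
    rw [map_sub, aeval_X, aeval_C, mul_comm]
    rfl
  rw [h, hh_mul]
  show eval w ((X i - C (w i)) * hh hB hf (c i) a) = 0
  rw [map_mul, map_sub, eval_X, eval_C, sub_self, zero_mul]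

/-- `P(f)` is congruent to `P(w)` -/
theorem aeval_mem (f : Fin v → MvPolynomial (Fin v) R) (w : Fin v → R)
    (P : MvPolynomial (Fin v) R) : aeval f P - C (eval w P) ∈ Iw f w := by
  rw [← Ideal.Quotient.eq]
  have h : ((Ideal.Quotient.mkₐ R (Iw f w)).comp (aeval f)) =
      (Ideal.Quotient.mkₐ R (Iw f w)).comp ((Algebra.ofId R (MvPolynomial (Fin v) R)).comp
        (aeval w)) := by
    apply MvPolynomial.algHom_ext
    intro i
    simp only [AlgHom.comp_apply, aeval_X, Ideal.Quotient.mkₐ_eq_mk]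
    rw [Ideal.Quotient.eq]
    exact Ideal.subset_span ⟨i, rfl⟩
  exact DFunLike.congr_fun h P

theorem mk_eq (hB : S_BAS) (hf : Mo M f) (w : Fin v → R) (G : MvPolynomial (Fin v) R) :
    Ideal.Quotient.mk (Iw f w) G =
      ∑ a : Fin v → Fin M, rho hB hf w G a • Ideal.Quotient.mk (Iw f w) (xm R a) := by
  conv_lhs => rw [hh_spec hB hf G]
  rw [map_sum]
  refine Finset.sum_congr rfl fun a _ => ?_
  rw [map_mul, Ideal.Quotient.eq.2 (aeval_mem f w (hh hB hf G a)), rho_apply, Algebra.smul_def]
  rfl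

theorem hh_const (hB : S_BAS) (hf : Mo M f) (r : (Fin v → Fin M) → R) :
    hh hB hf (∑ a, C (r a) * xm R a) = fun a => C (r a) := by
  apply hh_uniq
  refine Finset.sum_congr rfl fun a _ => ?_
  rw [aeval_C]
  rfl

theorem rho_const (hB : S_BAS) (hf : Mo M f) (w : Fin v → R) (r : (Fin v → Fin M) → R) :
    rho hB hf w (∑ a, C (r a) * xm R a) = r := by
  funext a
  rw [rho_apply, hh_const, eval_C]

/-- the classes of the monomials -/
noncomputable def phi (f : Fin v → MvPolynomial (Fin v) R) (M : ℕ) (w : Fin v → R) :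
    ((Fin v → Fin M) → R) →ₗ[R] (MvPolynomial (Fin v) R ⧸ Iw f w) where
  toFun r := ∑ a, r a • Ideal.Quotient.mk (Iw f w) (xm R a)
  map_add' r r' := by
    rw [← Finset.sum_add_distrib]
    refine Finset.sum_congr rfl fun a _ => ?_
    rw [Pi.add_apply, add_smul]
  map_smul' c r := by
    rw [Finset.smul_sum]
    refine Finset.sum_congr rfl fun a _ => ?_
    rw [Pi.smul_apply, smul_assoc]
    rfl

theorem phi_apply (w : Fin v → R) (r : (Fin v → Fin M) → R) :
    phi f M w r = ∑ a, r a • Ideal.Quotient.mk (Iw f w) (xm R a) := rfl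

theorem phi_mk (w : Fin v → R) (r : (Fin v → Fin M) → R) :
    phi f M w r = Ideal.Quotient.mk (Iw f w) (∑ a, C (r a) * xm R a) := by
  rw [phi_apply, map_sum]
  refine Finset.sum_congr rfl fun a _ => ?_
  rw [map_mul, Algebra.smul_def]
  rfl

theorem phi_bij (hB : S_BAS) (hf : Mo M f) (w : Fin v → R) :
    Function.Bijective (phi f M w) := by
  constructor
  · rw [injective_iff_map_eq_zero]
    intro r hr
    rw [phi_mk, Ideal.Quotient.eq_zero_iff_mem] at hr
    rw [← rho_const hB hf w r]
    exact rho_zero hB hf w hr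
  · intro y
    obtain ⟨G, rfl⟩ := Ideal.Quotient.mk_surjective y
    exact ⟨rho hB hf w G, (mk_eq hB hf w G).symm⟩

/-- the coordinates on the fibre -/
noncomputable def phie (hB : S_BAS) (hf : Mo M f) (w : Fin v → R) :
    ((Fin v → Fin M) → R) ≃ₗ[R] (MvPolynomial (Fin v) R ⧸ Iw f w) :=
  LinearEquiv.ofBijective (phi f M w) (phi_bij hB hf w)

theorem fin_fibre (hB : S_BAS) (hf : Mo M f) (w : Fin v → R) :
    Module.Finite R (MvPolynomial (Fin v) R ⧸ Iw f w) :=
  Module.Finite.equiv (phie hB hf w)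

theorem free_fibre (hB : S_BAS) (hf : Mo M f) (w : Fin v → R) :
    Module.Free R (MvPolynomial (Fin v) R ⧸ Iw f w) :=
  Module.Free.of_equiv (phie hB hf w)

theorem rank_fibre [Nontrivial R] (hB : S_BAS) (hf : Mo M f) (w : Fin v → R) :
    Module.finrank R (MvPolynomial (Fin v) R ⧸ Iw f w) = M ^ v := by
  rw [← LinearEquiv.finrank_eq (phie hB hf w), Module.finrank_fintype_fun_eq_card]
  simp

end gen

theorem tdeg_map {R S : Type} [CommRing R] [CommRing S] (φ : R →+* S) {v : ℕ}
    (g : MvPolynomial (Fin v) R) : (MvPolynomial.map φ g).totalDegree ≤ g.totalDegree := by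
  unfold MvPolynomial.totalDegree
  exact Finset.sup_mono (support_map_subset _ _)

theorem mo_map {R S : Type} [CommRing R] [CommRing S] (φ : R →+* S) {v M : ℕ}
    {f : Fin v → MvPolynomial (Fin v) R} (hf : Mo M f) :
    Mo M (fun i => MvPolynomial.map φ (f i)) := by
  refine ⟨hf.1, fun i => ?_⟩
  obtain ⟨g, hg, hfg⟩ := hf.2 i
  refine ⟨MvPolynomial.map φ g, lt_of_le_of_lt (tdeg_map φ g) hg, ?_⟩
  show MvPolynomial.map φ (f i) = _
  rw [hfg, map_add, map_pow, map_X]

end Pool.Agent.Y350.EM
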